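import Pool.Agent.Helper35.HC.All

/-!
# MP_925021: codimension two, every dimension `n ≥ 3`, exact constant `1/3`

`M` is a closed connected `n`-manifold, `n ≥ 3`, and `F : M × I → S^{n+2} ⊂ EE (n+3)` a mean curvature flow with
`|h(u,u)|² < 1/3` for all unit tangent vectors `u` at the time `0`.  If `I = [0,T)` and `|h|` is unbounded, `M` is
diffeomorphic to the sphere and the flow converges to a round point; if `I = [0,∞)`, `M` is diffeomorphic to the
sphere and the flow converges to a great sphere.  There is no condition on `|h|²` or on `H`, and `M` is not assumed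
to be orientable.  The definitions of the flow are in `Pool/Agent/Helper35/MS/Flow.lean`.

Outline of the proof (statements and proofs in words: `Pool/Agent/Helper35/HC/St*.lean`; Lean proofs:
`Pool/Agent/*/HC/M_*.lean`).
1. `√(1-2nτ) F`, `τ = (1 - e^(-2nt))/(2n)`, is a mean curvature flow in `EE (n+3)` on spheres of radius `ρ`,
   `ρ² = 1 - 2nτ`.  Let `x = ρ²|H|²/n² - 1` (the squared normalized mean curvature in the unit sphere).
2. The region `ρ²(|A(P,Q)|² + (E/n)|A°|²) < λ G(x)` for all orthonormal pairs `P, Q` of tangent vectors, with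
   `G(x) = c + Kx + D/(1+Bx)` and explicit constants (`K < 1/4` for `3 ≤ n ≤ 6` and another choice for `n ≥ 7`), contains
   all immersions with `|h(u,u)|² < 1/3` (`λ < 1` by compactness) and is preserved by the flow, with `λ e^(-δt)` instead of
   `λ`: maximum principle on the bundle of orthonormal 2-frames.  At a maximal pair the two normal directions `ξ = A(P,Q)/|..|` and
   `η ⟂ ξ` are decoupled: `A = K ξ + b η`, `|K(c,d)|² + |b(c,d)|² ≤ μ²` for all orthonormal pairs; the reaction terms are
   estimated by first and second order conditions at the maximum (an estimate of `|[K,b]|²` is the main point).  The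
   gradient terms are estimated by Codazzi's equation on symmetric 3-tensors (Huisken's inequality).
3. On the region at large `|H|` the pinching is `|A(P,Q)|² ≤ (K'/n²)|H|²`, `K' < 1/4`, together with
   `|A°|² ≤ (1-δ)(2(n-1)/(n(n+2)))|H|²`.  This gives, by integral estimates (Stampacchia iteration replaced by a mean value
   inequality with Huisken's monotonicity formula), `|A°|² ≤ C (T-t)^{α-1}` and `|∇A| ` estimates.
4. A type I bound, limit point and limit shape: the rescaled immersions converge to a round sphere with a rate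
   `(T-t)^α`, the diffeomorphism of `M` with the sphere comes from the gradient estimate of the normal projection.
5. `I = [0,∞)`: the same estimates for the rescaled flow up to the extinction time `1/(2n)` of the great sphere.
-/

set_option autoImplicit false

namespace Pool.Agent.Results.MP_925021_gt.CodimensionTwo

open Helper35.PI Helper35.MS Helper35.HC
open scoped ContDiff Manifold Topology
open Set Filter

section Def

variable (n : ℕ) {M : Type} [TopologicalSpace M] [ChartedSpace (EE n) M]

/-- Convergence to a round point at the time `T`: there are `x`, `|x| = 1`, a continuous map `G` of `M` onto the unit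
sphere of an `(n+1)`-dimensional linear subspace (the image of `L`), and `C`, `α > 0`, such that for all `t < T` near
`T`: `F(·,t)` is injective and, uniformly on `M`, `‖(2n(T-t))^(-1/2)(F - x) - G‖ ≤ C(T-t)^α`,
`(T-t)(|h|² - |H|²/n) ≤ C(T-t)^α` and `|(2/n)(T-t)|H|² - 1| ≤ C(T-t)^α`. -/
def RoundPoint (T : ℝ) (F : M → ℝ → EE (n + 3)) : Prop :=
  ∃ (x : EE (n + 3)) (G : M → EE (n + 3)) (L : EE (n + 1) →ₗᵢ[ℝ] EE (n + 3)) (C α ts : ℝ),
    ‖x‖ = 1 ∧ Continuous G ∧ range G = L '' Metric.sphere (0 : EE (n + 1)) 1 ∧ 0 < α ∧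
    ts ∈ Ico 0 T ∧ ∀ t ∈ Ico ts T, Function.Injective (fun q => F q t) ∧ ∀ q,
      ‖(1 / Real.sqrt (2 * n * (T - t))) • (F q t - x) - G q‖ ≤ C * (T - t) ^ α ∧
      (T - t) * (hS2 (n := n) F q t - ‖HS (n := n) F q t‖ ^ 2 / n) ≤ C * (T - t) ^ α ∧
      |2 / n * ((T - t) * ‖HS (n := n) F q t‖ ^ 2) - 1| ≤ C * (T - t) ^ α

/-- Convergence to a great sphere: with some `C`, `α > 0`, `‖F(·,t) - G‖ ≤ Ce^{-αt}` uniformly on `M` for a continuous
map `G` of `M` onto the unit sphere of an `(n+1)`-dimensional linear subspace (the image of `L`), `|h|² ≤ Ce^{-αt}`, and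
`F(·,t)` is injective for all large `t`. -/
def GreatSphere (F : M → ℝ → EE (n + 3)) : Prop :=
  ∃ (G : M → EE (n + 3)) (L : EE (n + 1) →ₗᵢ[ℝ] EE (n + 3)) (C α ts : ℝ), Continuous G ∧
    range G = L '' Metric.sphere (0 : EE (n + 1)) 1 ∧ 0 < α ∧
    (∀ t : ℝ, ts ≤ t → Function.Injective (fun q => F q t)) ∧ ∀ t : ℝ, 0 ≤ t → ∀ q,
    ‖F q t - G q‖ ≤ C * Real.exp (-α * t) ∧ hS2 (n := n) F q t ≤ C * Real.exp (-α * t)

/-- `M` is diffeomorphic to the standard `n`-sphere -/
def DiffeoSphere (M : Type) [TopologicalSpace M] [ChartedSpace (EE n) M] : Prop :=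
  Nonempty (M ≃ₘ⟮𝓡 n, 𝓡 n⟯ Metric.sphere (0 : EE (n + 1)) 1)

end Def

/-- **Codimension two of Q1, every dimension `n ≥ 3`, the exact constant `1/3`.**  `M` is a closed connected
`n`-manifold, `F` a mean curvature flow in the unit sphere of `EE (n+3)`, on `[0,T)` with `|h|` unbounded or on `[0,∞)`,
`|h(u,u)|² < 1/3` for all unit tangent vectors `u` at the time `0` (`Pinch3 n F 0`). -/
theorem result (n : ℕ) (h3n : 3 ≤ n) (M : Type) [TopologicalSpace M] [T2Space M] [CompactSpace M]
    [ConnectedSpace M] [ChartedSpace (EE n) M] [IsManifold (𝓡 n) ∞ M] (F : M → ℝ → EE (n + 3))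
    (hP : Pinch3 n F 0) :
    (∀ T : ℝ, 0 < T → SMCF n (Ico 0 T) F →
      (∀ C : ℝ, ∃ t ∈ Ico 0 T, ∃ q, C < hS2 (n := n) F q t) →
      DiffeoSphere n M ∧ RoundPoint n T F) ∧
    (SMCF n (Ici 0) F → DiffeoSphere n M ∧ GreatSphere n F) :=
  ⟨fun T hT hF hC => kFT3 n h3n M F T hT hF hP hC, fun hF => kIT3 n h3n M F hF hP⟩

end Pool.Agent.Results.MP_925021_gt.CodimensionTwo
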