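import Pool.Agent.Helper35.MS.All

/-!
# MP_925021: closed surfaces in spheres with `|h(u,u)|² < 1/3` (the case `n = 2`, every codimension)

`M` is a closed surface diffeomorphic to the two-sphere and `F : M × I → S^{N-1} ⊂ EE N` is a mean
curvature flow, with `|h(u,u)|² < 1/3` for all unit tangent vectors `u` at the time `0`.  If
`I = [0,T)` and `|h|` is unbounded, the flow converges to a round point; if `I = [0,∞)`, it converges
to a totally geodesic sphere.  The definitions of the flow are in `Pool/Agent/Helper35/MS/Flow.lean`.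

Outline of the proof (statements and proofs in words: `Pool/Agent/Helper35/MS/St*.lean`; Lean proofs:
`Pool/Agent/*/MS/M_*.lean`).  At a point write `h₁₁ = m + a`, `h₂₂ = m - a`, `h₁₂ = b`, `x = |m|²`,
`s = |a|² + |b|²`, `v = ⟨m,a⟩² + ⟨m,b⟩²`.
1. The region `s ≤ f(x) - γ(x) √(v + ε²)`, `f = 2/3 - 22x/(25(1+8x)) + 3x²/(8+10x)`,
   `γ = 3/(10(1+16x))`, contains `|h(u,u)|² < 1/3` and is preserved (maximum principle; the reaction
   terms are two-variable inequalities, the gradient terms a sum of squares by Codazzi).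
2. `√(1-4σ) F(·,t)`, `σ = (1 - e^(-4t))/4`, is a mean curvature flow in `EE N`, on which the energy
   `e = ∫ (2|A|² - |H|²)` decreases by the fourth order dissipation `d ≥ δ ∫ |H|² (2|A|² - |H|²)`; also
   `∫ |H|² = 16π + e` (Gauss-Bonnet).
3. No concentration of `∫ |H|²` in a short time, a mean value inequality and point picking: at every
   time near the end a fixed amount of energy lies in `{|H| ≥ c (T-t)^(-1/2)}`.
4. At times with `(T-t) d` small, the sharp Simon inequality, averaged over level sets of `|H|`, moves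
   the full energy `16π` there; so `e → 0` and the flow is of type I, with `(T-t) |H|² → 1`.
5. `|H + (F-x)/(2(T-t))|` is small by the mean value inequality, so `(F-x)/(2√(T-t))` converges, to a map
   onto a round sphere; `F(·,t)` is injective as `∫ |H|² < 32π` (Li-Yau inequality).
-/

set_option autoImplicit false

namespace Pool.Agent.Results.MP_925021_gt.DimensionTwo

open Helper35.PI Helper35.MS
open scoped ContDiff Manifold Topology
open Set Filter

section Def

variable {N : ℕ} {M : Type} [TopologicalSpace M] [ChartedSpace (EE 2) M]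

/-- Convergence to a round point at the time `T`: with some `C`, `α > 0`, for `t` near `T` and
uniformly on `M`, `(F - x)/(2√(T-t))` is within `C(T-t)^α` of a continuous map `G` of `M` onto the unit
sphere of a three-dimensional linear subspace (the image of `L`), `(T-t)(|h|² - |H|²/2) ≤ C(T-t)^α`,
`|(T-t)|H|² - 1| ≤ C(T-t)^α`, and `F(·,t)` is injective.  Here `|x| = 1`. -/
def RoundPoint (T : ℝ) (F : M → ℝ → EE N) : Prop :=
  ∃ (x : EE N) (G : M → EE N) (L : EE 3 →ₗᵢ[ℝ] EE N) (C α ts : ℝ), ‖x‖ = 1 ∧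
    Continuous G ∧ range G = L '' Metric.sphere (0 : EE 3) 1 ∧ 0 < α ∧ ts ∈ Ico 0 T ∧
    ∀ t ∈ Ico ts T, Function.Injective (fun q => F q t) ∧ ∀ q,
      ‖(1 / (2 * Real.sqrt (T - t))) • (F q t - x) - G q‖ ≤ C * (T - t) ^ α ∧
      (T - t) * (hS2 (n := 2) F q t - ‖HS (n := 2) F q t‖ ^ 2 / 2) ≤ C * (T - t) ^ α ∧
      |(T - t) * ‖HS (n := 2) F q t‖ ^ 2 - 1| ≤ C * (T - t) ^ α

/-- Convergence to a totally geodesic sphere: with some `C`, `α > 0`, uniformly on `M`,
`‖F(·,t) - G‖ ≤ Ce^{-αt}` for a continuous map `G` of `M` onto the unit sphere of a three-dimensional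
linear subspace (a great `2`-sphere), `|h|² ≤ Ce^{-αt}`, and `F(·,t)` is injective for large `t`. -/
def GreatSphere (F : M → ℝ → EE N) : Prop :=
  ∃ (G : M → EE N) (L : EE 3 →ₗᵢ[ℝ] EE N) (C α ts : ℝ), Continuous G ∧
    range G = L '' Metric.sphere (0 : EE 3) 1 ∧ 0 < α ∧
    (∀ t : ℝ, ts ≤ t → Function.Injective (fun q => F q t)) ∧ ∀ t : ℝ, 0 ≤ t → ∀ q,
      ‖F q t - G q‖ ≤ C * Real.exp (-α * t) ∧ hS2 (n := 2) F q t ≤ C * Real.exp (-α * t)

end Def

/-- **The case `n = 2` of Q1, in every codimension.**  `M` is a closed surface diffeomorphic to the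
sphere, `F` is a mean curvature flow in the unit sphere of `EE N`, on `[0,T)` or on `[0,∞)`, with
`|h(u,u)|² < 1/3` for all unit tangent vectors `u` at the time `0`. -/
theorem result (N : ℕ) (M : Type) [TopologicalSpace M] [ChartedSpace (EE 2) M]
    [IsManifold (𝓡 2) ∞ M] (hM : Nonempty (M ≃ₘ⟮𝓡 2, 𝓡 2⟯ S2)) (F : M → ℝ → EE N)
    (hP : Pinch3 2 F 0) :
    (∀ T : ℝ, 0 < T → SMCF 2 (Ico 0 T) F →
      (∀ C : ℝ, ∃ t ∈ Ico 0 T, ∃ q, C < hS2 (n := 2) F q t) → RoundPoint T F) ∧
    (SMCF 2 (Ici 0) F → GreatSphere F) := by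
  obtain ⟨Φ⟩ := hM
  refine ⟨fun T hT hF hC => ?_, fun hF => ?_⟩
  · obtain ⟨hF', hP', hH⟩ := jDIF N M Φ (Ico 0 T) F hF _ rfl
    have h0 : (0 : ℝ) ∈ Ico 0 T := ⟨le_rfl, hT⟩
    have hC' : ∀ C : ℝ, ∃ t ∈ Ico 0 T, ∃ q, C < hS2 (n := 2) (fun y t => F (Φ.symm y) t) q t := by
      intro C
      obtain ⟨t, ht, q, hq⟩ := hC C
      exact ⟨t, ht, Φ q, by rw [(hH q t ht).2]; exact hq⟩
    obtain ⟨x, G, L, C, α, ts, hx, hG, hr, hα, hts, h⟩ :=
      jFIN2 N (fun y t => F (Φ.symm y) t) T hT hF' (hP' 0 h0 hP) hC'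
    refine ⟨x, fun q => G (Φ q), L, C, α, ts, hx, hG.comp Φ.continuous, ?_, hα, hts, ?_⟩
    · rw [← hr]
      ext z
      constructor
      · rintro ⟨q, rfl⟩; exact ⟨Φ q, rfl⟩
      · rintro ⟨y, rfl⟩; exact ⟨Φ.symm y, by simp⟩
    · intro t ht
      obtain ⟨h1, h2⟩ := h t ht
      have ht' : t ∈ Ico 0 T := ⟨hts.1.trans ht.1, ht.2⟩
      refine ⟨fun p q hpq => ?_, fun q => ?_⟩
      · have h3 : Φ p = Φ q := h1 (by simpa using hpq)
        exact Φ.injective h3
      · obtain ⟨a, b, c⟩ := h2 (Φ q)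
        rw [(hH q t ht').1, (hH q t ht').2] at b
        rw [(hH q t ht').1] at c
        refine ⟨?_, b, c⟩
        simpa using a
  · obtain ⟨hF', hP', hH⟩ := jDIF N M Φ (Ici 0) F hF _ rfl
    have h0 : (0 : ℝ) ∈ Ici (0 : ℝ) := mem_Ici.mpr le_rfl
    obtain ⟨G, L, C, α, ts, hG, hr, hα, hi, h⟩ :=
      jINF2 N (fun y t => F (Φ.symm y) t) hF' (hP' 0 h0 hP)
    refine ⟨fun q => G (Φ q), L, C, α, ts, hG.comp Φ.continuous, ?_, hα, ?_, ?_⟩
    · rw [← hr]
      ext z
      constructor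
      · rintro ⟨q, rfl⟩; exact ⟨Φ q, rfl⟩
      · rintro ⟨y, rfl⟩; exact ⟨Φ.symm y, by simp⟩
    · intro t ht p q hpq
      have h3 : Φ p = Φ q := hi t ht (by simpa using hpq)
      exact Φ.injective h3
    · intro t ht q
      obtain ⟨a, b⟩ := h t ht (Φ q)
      rw [(hH q t ht).2] at b
      refine ⟨?_, b⟩
      simpa using a

end Pool.Agent.Results.MP_925021_gt.DimensionTwo
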