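import Pool.Agent.Helper35.HG.All

/-!
# MP_925021: every codimension `q ≥ 3` in dimensions `n ≥ 8(q-1)`, exact constant `1/3`

`M` is a closed connected `n`-manifold, `q ≥ 3`, `n ≥ 8(q-1)`, and `F : M × I → S^{n+q} ⊂ EE (n+q+1)` a mean curvature
flow with `|h(u,u)|² < 1/3` for all unit tangent vectors `u` at the time `0`.  If `I = [0,T)` and `|h|` is unbounded,
`M` is diffeomorphic to the sphere and the flow converges to a round point; if `I = [0,∞)`, `M` is diffeomorphic to
the sphere and the flow converges to a great sphere.  There is no condition on `|h|²` or on `H`, and `M` is not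
assumed to be orientable.  The definitions of the flow are in `Pool/Agent/Helper35/MS/Flow.lean`.

Outline of the proof (statements and proofs in words: `Pool/Agent/Helper35/HG/St*.lean`, `Helper35/HC/St*.lean`; Lean
proofs: `Pool/Agent/*/HG/M_*.lean`, `Pool/Agent/*/HC/M_*.lean`).
1. `√(1-2nτ) F`, `τ = (1 - e^(-2nt))/(2n)`, is a mean curvature flow in `EE (n+q+1)` on spheres of radius `ρ`,
   `ρ² = 1 - 2nτ`.  Let `x = ρ²|H|²/n² - 1` (the squared normalized mean curvature in the unit sphere).
2. The region: for every unit normal `ν` in the sphere and all orthonormal tangent vectors `P, Q`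
   `ρ²(⟨A(P,Q),ν⟩² + (E/n)|A^ν°|²) + λ e(x)ρ²|A°|²/n < λ(J(X_ν) + P(x))`, `X_ν = ρ²⟨H,ν⟩²/n² ≤ x`, with explicit
   functions `J(X) = c + KX + D/(1+BX) - 2P(X)`, `P(x) = (3/10)(√(1+12x/n²) - 1)`, `e = (9/4)P'`, `K < 1/4`.  It contains
   all immersions with `|h(u,u)|² < 1/3` (`λ < 1` by compactness) and is preserved by the flow, with a decreasing `λ`:
   maximum principle on the bundle of triples `(P,Q,ν)`.  At a maximal triple the first order condition in `ν` removes the
   terms with `⟨A^ν,A^{ν'}⟩`, the commutator terms are `≤ (4/n)⟨A(P,Q),ν⟩²` times the bound for each of the `q-1` other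
   normal directions (this is where `n ≥ 8(q-1)` is used), and the growth of `P(x)` pays for the normal directions with
   large `⟨H,ν'⟩`.  The gradient terms are estimated by Huisken's inequality for symmetric 3-tensors.
3. On the region at large `|H|` the pinching is that of codimension two (`Helper35/HC`): `⟨A(P,Q),ν⟩² ≤ (K/n²)⟨H,ν⟩² +
   o(|H|²)`, `K < 1/4`, `|A°|² ≤ (1-δ)(2(n-1)/(n(n+2)))|H|²`; the integral estimates are carried out with the pinching
   known only where `|H|²` is large, then the minimum principle shows that `|H|²` is large everywhere near `T`.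
4. A type I bound, limit point, limit shape and the diffeomorphism with the sphere: project HC (any codimension).
-/

set_option autoImplicit false

namespace Pool.Agent.Results.MP_925021_gt.HighCodimension

open Helper35.PI Helper35.MS Helper35.HG
open scoped ContDiff Manifold Topology
open Set Filter

section Def

variable (n : ℕ) {N : ℕ} {M : Type} [TopologicalSpace M] [ChartedSpace (EE n) M]

/-- Convergence to a round point at the time `T`: there are `x`, `|x| = 1`, a continuous map `G` of `M` onto the unit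
sphere of an `(n+1)`-dimensional linear subspace (the image of `L`), and `C`, `α > 0`, such that for all `t < T` near
`T`: `F(·,t)` is injective and, uniformly on `M`, `‖(2n(T-t))^(-1/2)(F - x) - G‖ ≤ C(T-t)^α`,
`(T-t)(|h|² - |H|²/n) ≤ C(T-t)^α` and `|(2/n)(T-t)|H|² - 1| ≤ C(T-t)^α`. -/
def RoundPoint (T : ℝ) (F : M → ℝ → EE N) : Prop :=
  ∃ (x : EE N) (G : M → EE N) (L : EE (n + 1) →ₗᵢ[ℝ] EE N) (C α ts : ℝ),
    ‖x‖ = 1 ∧ Continuous G ∧ range G = L '' Metric.sphere (0 : EE (n + 1)) 1 ∧ 0 < α ∧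
    ts ∈ Ico 0 T ∧ ∀ t ∈ Ico ts T, Function.Injective (fun q => F q t) ∧ ∀ q,
      ‖(1 / Real.sqrt (2 * n * (T - t))) • (F q t - x) - G q‖ ≤ C * (T - t) ^ α ∧
      (T - t) * (hS2 (n := n) F q t - ‖HS (n := n) F q t‖ ^ 2 / n) ≤ C * (T - t) ^ α ∧
      |2 / n * ((T - t) * ‖HS (n := n) F q t‖ ^ 2) - 1| ≤ C * (T - t) ^ α

/-- Convergence to a great sphere: with some `C`, `α > 0`, `‖F(·,t) - G‖ ≤ Ce^{-αt}` uniformly on `M` for a continuous
map `G` of `M` onto the unit sphere of an `(n+1)`-dimensional linear subspace (the image of `L`), `|h|² ≤ Ce^{-αt}`, and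
`F(·,t)` is injective for all large `t`. -/
def GreatSphere (F : M → ℝ → EE N) : Prop :=
  ∃ (G : M → EE N) (L : EE (n + 1) →ₗᵢ[ℝ] EE N) (C α ts : ℝ), Continuous G ∧
    range G = L '' Metric.sphere (0 : EE (n + 1)) 1 ∧ 0 < α ∧
    (∀ t : ℝ, ts ≤ t → Function.Injective (fun q => F q t)) ∧ ∀ t : ℝ, 0 ≤ t → ∀ q,
    ‖F q t - G q‖ ≤ C * Real.exp (-α * t) ∧ hS2 (n := n) F q t ≤ C * Real.exp (-α * t)

/-- `M` is diffeomorphic to the standard `n`-sphere -/
def DiffeoSphere (M : Type) [TopologicalSpace M] [ChartedSpace (EE n) M] : Prop :=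
  Nonempty (M ≃ₘ⟮𝓡 n, 𝓡 n⟯ Metric.sphere (0 : EE (n + 1)) 1)

end Def

/-- **Every codimension `q ≥ 3` of Q1 in dimensions `n ≥ 8(q-1)`, the exact constant `1/3`.**  `M` is a closed
connected `n`-manifold, `F` a mean curvature flow in the unit sphere of `EE (n+q+1)`, on `[0,T)` with `|h|` unbounded
or on `[0,∞)`, `|h(u,u)|² < 1/3` for all unit tangent vectors `u` at the time `0` (`Pinch3 n F 0`). -/
theorem result (n q : ℕ) (hq : 3 ≤ q) (hn : 8 * (q - 1) ≤ n) (M : Type) [TopologicalSpace M]
    [T2Space M] [CompactSpace M] [ConnectedSpace M] [ChartedSpace (EE n) M]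
    [IsManifold (𝓡 n) ∞ M] (F : M → ℝ → EE (n + q + 1)) (hP : Pinch3 n F 0) :
    (∀ T : ℝ, 0 < T → SMCF n (Ico 0 T) F →
      (∀ C : ℝ, ∃ t ∈ Ico 0 T, ∃ q, C < hS2 (n := n) F q t) →
      DiffeoSphere n M ∧ RoundPoint n T F) ∧
    (SMCF n (Ici 0) F → DiffeoSphere n M ∧ GreatSphere n F) := by
  have hN : n + q + 1 = n + (q - 2) + 3 := by omega
  have hp := kSCG n (q - 2) (by omega) (by omega)
  exact ⟨fun T hT hF hC => kFT4 n (n + q + 1) (q - 2) hN _ hp M F T hT hF hP hC,
    fun hF => kIT4 n (n + q + 1) (q - 2) hN _ hp M F hF hP⟩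

end Pool.Agent.Results.MP_925021_gt.HighCodimension
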