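import Pool.Agent.Helper35.HSF.All
import Pool.Agent.Helper35.HSF.Fin

/-!
# MP_925021: closed hypersurfaces of spheres (codimension one, every dimension `n ≥ 2`), `|h(u,u)| < 1`

`M` is a closed connected `n`-manifold, `n ≥ 2`, and `F : M × I → S^{n+1} ⊂ EE (n+2)` a mean curvature
flow with a continuous unit normal at the time `0` (the orientation of `M`) and `|h(u,u)|² < 1` for all
unit tangent vectors `u` at the time `0`.  Then `M` is diffeomorphic to the sphere, all `F(·,t)` are
embeddings, and the flow converges to a round point (if `I = [0,T)` and `|h|` is unbounded) or to a great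
sphere (if `I = [0,∞)`).  The constant `1` is sharp: `S^k(1/√2) × S^{n-k}(1/√2)` has `|h(u,u)| ≤ 1`.
The definitions of the flow are in `Pool/Agent/Helper35/MS/Flow.lean`.

Outline of the proof (statements and proofs in words: `Pool/Agent/Helper35/HSF/St*.lean`; Lean proofs:
`Pool/Agent/*/HSF/M_*.lean`).
1. If `g : M → S^{n+1}` is an immersion with unit normal `η` and definite second fundamental form, all
   sets `{⟨g,a⟩ > 0}` are connected and `⟨g(y), η(x)⟩ ≥ 0` (do Carmo-Warner).  For `g` parallel to `F(·,0)`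
   this gives touching balls on both sides, injectivity of `F(·,0)` and, by central projection, a
   diffeomorphism of `M` onto the sphere.
2. `√(1-2nτ) F`, `τ = (1 - e^(-2nt))/(2n)`, is a mean curvature flow in `EE (n+2)` on spheres of radius
   `ρ`, `ρ² = 1 - 2nτ`.  Let `Z_x` be the set of all chord curvatures `2⟨Y-X,ν_x⟩/|Y-X|²` and all normal
   curvatures at `x`.  The condition `(1-k) z² - z z' < k/ρ²` for all `x` and `z, z' ∈ Z_x` is preserved, for
   every `k ∈ (0,1)` (maximum principle at three points); it implies injectivity.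
3. If `|h|` is unbounded: a great circle cannot meet a closed hypersurface of an open hemisphere exactly
   once, transversally (a divergence theorem), so at some time all curvatures in `Z_x` are large and of one
   sign; from then on all curvatures on `M_t` are comparable, and the flow is of type I.
4. `∫ |h°|^{2p} H^{2(n-p)}` is bounded for large `p`; with a mean value inequality (Huisken's monotonicity
   formula) `|h°|² ≤ C (T-t)^{α-1}`.
5. A Lyapunov function (area and enclosed volume of cones with vertex at the limit point) shows that `H`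
   becomes constant in the mean, and then uniformly: `√(2n(T-t)) h(u,u) → 1`.  Touching balls (Blaschke)
   give the convergence to a round sphere.
6. `I = [0,∞)`: `|h|²` decays exponentially by the mean value inequality, `F(·,t)` converges to a map into
   a great sphere, injective since the directions of the curvatures stay bounded.
-/

set_option autoImplicit false

namespace Pool.Agent.Results.MP_925021_gt.Hypersurfaces

open Helper35.PI Helper35.MS Helper35.HSF
open scoped ContDiff Manifold Topology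
open Set Filter

section Def

variable (n : ℕ) {M : Type} [TopologicalSpace M] [ChartedSpace (EE n) M]

/-- `ν₀` is a continuous unit normal of the hypersurface `F(·,0)` of the unit sphere: `|ν₀| = 1`,
`ν₀ ⟂ F`, `ν₀ ⟂ ∂_i F` (preferred chart at `q`) -/
structure UnitNormal (F : M → ℝ → EE (n + 2)) (ν₀ : M → EE (n + 2)) : Prop where
  continuous : Continuous ν₀
  norm : ∀ q, ‖ν₀ q‖ = 1
  position : ∀ q, (inner ℝ (F q 0) (ν₀ q) : ℝ) = 0
  tangent : ∀ (q : M) (i : Fin n),
    (inner ℝ (dv1 (loc (n := n) F q 0) (chartAt (EE n) q q) i) (ν₀ q) : ℝ) = 0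

/-- `|h(u,u)|² < 1` for all unit tangent vectors `u` at the time `0` -/
def Pinch1 (F : M → ℝ → EE (n + 2)) : Prop :=
  ∀ (q : M) (u : Fin n → ℝ), ∑ i, ∑ j, gM (n := n) F q 0 i j * (u i * u j) = 1 →
    ‖∑ i, ∑ j, (u i * u j) • hM (n := n) F q 0 i j‖ ^ 2 < 1

/-- Convergence to a round point at the time `T`: there is `x`, `|x| = 1`, such that for every `η > 0`
and all `t < T` near `T`, with `σ = √(2n(T-t))`, uniformly on `M`: `||F - x| - σ| ≤ ησ`,
`|σ|h(u,u)| - 1| ≤ η` for all unit tangent vectors `u`, and `F(M,t)` has Hausdorff distance at most `ησ`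
from the round `n`-sphere of radius `σ` and centre `x` in the hyperplane `x + x^⊥`. -/
def RoundPoint (T : ℝ) (F : M → ℝ → EE (n + 2)) : Prop :=
  ∃ x : EE (n + 2), ‖x‖ = 1 ∧ ∀ η : ℝ, 0 < η → ∃ t₂ ∈ Ico 0 T, ∀ t ∈ Ico t₂ T,
    ∀ σ : ℝ, σ = Real.sqrt (2 * n * (T - t)) →
    (∀ q, |‖F q t - x‖ - σ| ≤ η * σ ∧
      (∀ u : Fin n → ℝ, ∑ i, ∑ j, gM (n := n) F q t i j * (u i * u j) = 1 →
        |σ * ‖∑ i, ∑ j, (u i * u j) • hM (n := n) F q t i j‖ - 1| ≤ η) ∧
      ∃ p : EE (n + 2), (inner ℝ p x : ℝ) = 0 ∧ ‖p‖ = 1 ∧ ‖F q t - x - σ • p‖ ≤ η * σ) ∧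
    ∀ p : EE (n + 2), (inner ℝ p x : ℝ) = 0 → ‖p‖ = 1 → ∃ q, ‖F q t - x - σ • p‖ ≤ η * σ

/-- Convergence to a great sphere: with some `C`, `α > 0`, `‖F(·,t) - G‖ ≤ Ce^{-αt}` uniformly on `M`
for a continuous injective map `G` of `M` onto the unit sphere of an `(n+1)`-dimensional linear
subspace (the image of `L`), and `|h|² ≤ Ce^{-αt}`. -/
def GreatSphere (F : M → ℝ → EE (n + 2)) : Prop :=
  ∃ (G : M → EE (n + 2)) (L : EE (n + 1) →ₗᵢ[ℝ] EE (n + 2)) (C α : ℝ), Continuous G ∧
    Function.Injective G ∧ range G = L '' Metric.sphere (0 : EE (n + 1)) 1 ∧ 0 < α ∧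
    ∀ t : ℝ, 0 ≤ t → ∀ q, ‖F q t - G q‖ ≤ C * Real.exp (-α * t) ∧
      hS2 (n := n) F q t ≤ C * Real.exp (-α * t)

/-- `M` is diffeomorphic to the standard `n`-sphere -/
def DiffeoSphere (M : Type) [TopologicalSpace M] [ChartedSpace (EE n) M] : Prop :=
  Nonempty (M ≃ₘ⟮𝓡 n, 𝓡 n⟯ Metric.sphere (0 : EE (n + 1)) 1)

end Def

/-- **Codimension one of Q1, every dimension `n ≥ 2`, with `1` instead of `1/3`.**  `M` is a closed
connected `n`-manifold, `F` a mean curvature flow in the unit sphere of `EE (n+2)`, on `[0,T)` or on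
`[0,∞)`, `ν₀` a continuous unit normal at the time `0`, `|h(u,u)|² < 1` for all unit tangent vectors `u`
at the time `0`. -/
theorem result (n : ℕ) (h2n : 2 ≤ n) (M : Type) [TopologicalSpace M] [T2Space M] [CompactSpace M]
    [ConnectedSpace M] [ChartedSpace (EE n) M] [IsManifold (𝓡 n) ∞ M] (F : M → ℝ → EE (n + 2))
    (ν₀ : M → EE (n + 2)) (hν : UnitNormal n F ν₀) (hP : Pinch1 n F) :
    (∀ T : ℝ, 0 < T → SMCF n (Ico 0 T) F →
      DiffeoSphere n M ∧ (∀ t ∈ Ico 0 T, Function.Injective (fun q => F q t)) ∧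
      ((∀ C : ℝ, ∃ t ∈ Ico 0 T, ∃ q, C < hS2 (n := n) F q t) → RoundPoint n T F)) ∧
    (SMCF n (Ici 0) F →
      DiffeoSphere n M ∧ (∀ t : ℝ, 0 ≤ t → Function.Injective (fun q => F q t)) ∧
      GreatSphere n F) := by
  have hν : UN0 n F ν₀ := ⟨hν.continuous, hν.norm, hν.position, hν.tangent⟩
  have hP : Pin1 n F := hP
  refine ⟨fun T hT hF => ⟨?_, ?_, fun hC => ?_⟩, fun hF => ?_⟩
  · exact kHDI n h2n M (Ico 0 T) F ν₀ (udIco T hT) ⟨le_rfl, hT⟩ hF hν hP
  · exact hINJ kPNA kNUX kHMN n h2n M F ν₀ T hT hF hν hP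
  · exact (kHFI n h2n M F ν₀ T hT hF hν hP hC).2
  · obtain ⟨h1, h2⟩ := kHIN n h2n M F ν₀ hF hν hP
    exact ⟨kHDI n h2n M (Ici 0) F ν₀ udIci (mem_Ici.mpr le_rfl) hF hν hP, h1, h2⟩

end Pool.Agent.Results.MP_925021_gt.Hypersurfaces
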